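import Pool.Agent.Helper65.KPZ.St

set_option autoImplicit false

namespace Pool.Agent.Helper19.KPZ

open Pool.Agent.Helper65.KPZ

theorem hZCO : StZCO := by
  intro s L kk hL hdvd a
  induction a with
  | zero =>
    intro e _
    exact ⟨fun _ => 0, fun i => Nat.zero_le _, by simp⟩
  | succ a ih =>
    intro e he
    -- some term is at least `L`
    obtain ⟨i, hi⟩ : ∃ i, L ≤ e i * kk i := by
      by_contra hcon
      push Not at hcon
      have h1 : ∑ i, e i * kk i ≤ ∑ _i : Fin s, L := Finset.sum_le_sum fun i _ => (hcon i).le
      rw [Finset.sum_const, Finset.card_univ, Fintype.card_fin, smul_eq_mul] at h1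
      have h2 : (s + 1 + (a + 1)) * L = s * L + (a + 2) * L := by ring
      have h3 : 0 < (a + 2) * L := Nat.mul_pos (by omega) hL
      omega
    have hk : 0 < kk i := by
      rcases Nat.eq_zero_or_pos (kk i) with h | h
      · rw [h, Nat.mul_zero] at hi
        omega
      · exact h
    obtain ⟨c, hc⟩ := hdvd i hk
    have hce : c ≤ e i := by
      rw [hc, Nat.mul_comm] at hi
      exact Nat.le_of_mul_le_mul_right hi hk
    classical
    have hsum : ∀ f : Fin s → ℕ, ∑ j, (f j + if j = i then c else 0) * kk j
        = ∑ j, f j * kk j + L := by
      intro f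
      have : ∀ j, (f j + if j = i then c else 0) * kk j
          = f j * kk j + if j = i then c * kk i else 0 := by
        intro j
        by_cases h : j = i
        · subst h; simp [Nat.add_mul]
        · simp [h]
      rw [Finset.sum_congr rfl fun j _ => this j, Finset.sum_add_distrib]
      simp [hc, Nat.mul_comm]
    have hsplit : (fun j => (e j - if j = i then c else 0) + if j = i then c else 0) = e := by
      funext j
      by_cases h : j = i
      · subst h; simp; omega
      · simp [h]
    have he2 : (s + 1 + a) * L ≤ ∑ j, (e j - if j = i then c else 0) * kk j := by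
      have h1 := hsum (fun j => e j - if j = i then c else 0)
      have h2 : ∑ j, ((e j - if j = i then c else 0) + if j = i then c else 0) * kk j
          = ∑ j, e j * kk j := by
        refine Finset.sum_congr rfl fun j _ => ?_
        rw [congrFun hsplit j]
      rw [h2] at h1
      have h3 : (s + 1 + (a + 1)) * L = (s + 1 + a) * L + L := by ring
      omega
    obtain ⟨e', hle, hs⟩ := ih _ he2
    refine ⟨fun j => e' j + if j = i then c else 0, fun j => ?_, ?_⟩
    · have h1 := hle j
      have h2 := congrFun hsplit j
      simp only at h1 h2 ⊢
      omega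
    · rw [hsum, hs]
      ring

end Pool.Agent.Helper19.KPZ
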